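import Mathlib
import Pool.Agent.Helper495_PQ.Fin
import Pool.Agent.Helper495_SP.Cyc
set_option autoImplicit false

/-!
Torsion units of order `p ^ a * q` in integral group rings of arbitrary finite groups.
-/

namespace Pool.Agent.Results.MP_6f6ee6_al.PrimePowerTimesPrime

open Pool.Agent.Helper495_SP Pool.Agent.Helper495_PQ

/-- Let `G` be any finite group, `p`, `q` distinct primes and `a` a natural number.  The group of
normalised units of `ℤ[G]` has an element of order `p ^ a * q` if and only if `G` has one. -/
theorem result (G : Type) [Group G] [Finite G] (p q a : ℕ) (hp : p.Prime) (hq : q.Prime)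
    (hpq : p ≠ q) :
    (∃ u : (MonoidAlgebra ℤ G)ˣ,
      (MonoidAlgebra.lift _ _ _ (1 : G →* ℤ)) (u : MonoidAlgebra ℤ G) = 1 ∧
        orderOf u = p ^ a * q) ↔
      ∃ g : G, orderOf g = p ^ a * q := by
  constructor
  · rintro ⟨u, haug, hu⟩
    rcases Nat.eq_zero_or_pos a with rfl | ha
    · rw [pow_zero, one_mul] at hu
      have := exists_of_prime_pow q 1 hq u haug (by rw [pow_one, hu])
      simpa using this
    · exact order_pa_q p q a hp hq hpq ha u haug hu
  · rintro ⟨g, hg⟩
    have hinj : Function.Injective (Units.map (MonoidAlgebra.of ℤ G) : Gˣ →* (MonoidAlgebra ℤ G)ˣ) :=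
      Units.map_injective MonoidAlgebra.of_injective
    refine ⟨Units.map (MonoidAlgebra.of ℤ G) (toUnits g), by simp, ?_⟩
    rw [orderOf_injective _ hinj, ← hg]
    exact orderOf_injective toUnits.toMonoidHom toUnits.injective g

end Pool.Agent.Results.MP_6f6ee6_al.PrimePowerTimesPrime
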