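import Mathlib
import Pool.Agent.Helper495_SP.Fam
set_option autoImplicit false

/-!
The spectrum problem for the groups `PSL(2, q)`.
-/

namespace Pool.Agent.Results.MP_6f6ee6_al.SpectrumPSL2

open Pool.Agent.Helper495_SP

/-- For every finite field `F` the group `PSL(2, F)` and the group of normalised units of its
integral group ring have the same spectrum. -/
theorem result (F : Type) [Field F] [Finite F] :
    {n : ℕ | ∃ g : Matrix.ProjectiveSpecialLinearGroup (Fin 2) F, orderOf g = n} =
      {n : ℕ | ∃ u : (MonoidAlgebra ℤ (Matrix.ProjectiveSpecialLinearGroup (Fin 2) F))ˣ,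
        (MonoidAlgebra.lift _ _ _ (1 : Matrix.ProjectiveSpecialLinearGroup (Fin 2) F →* ℤ))
          (u : MonoidAlgebra ℤ (Matrix.ProjectiveSpecialLinearGroup (Fin 2) F)) = 1 ∧
        IsOfFinOrder u ∧ orderOf u = n} :=
  sp_PSL2 F

end Pool.Agent.Results.MP_6f6ee6_al.SpectrumPSL2
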