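import Mathlib
import Pool.Agent.Helper495_SP.Fam
set_option autoImplicit false

/-!
The spectrum problem for the Suzuki groups.
-/

namespace Pool.Agent.Results.MP_6f6ee6_al.SpectrumSuzuki

open Pool.Agent.Helper495_SP

/-- `G` and the group of normalised units of its integral group ring have the same spectrum. -/
def SameSpectrum (G : Type) [Group G] : Prop :=
  {n : ℕ | ∃ g : G, orderOf g = n} =
    {n : ℕ | ∃ u : (MonoidAlgebra ℤ G)ˣ,
      (MonoidAlgebra.lift _ _ _ (1 : G →* ℤ)) (u : MonoidAlgebra ℤ G) = 1 ∧
        IsOfFinOrder u ∧ orderOf u = n}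

/-- For every `m` and every field `F` with `q = 2 ^ (2 * m + 1)` elements the Suzuki group `Sz(q)`
(with `θ x = x ^ (2 ^ (m + 1))`) and the group of normalised units of its integral group ring have
the same spectrum. -/
theorem result (m : ℕ) (F : Type) [Field F] [CharP F 2] (hF : Nat.card F = 2 ^ (2 * m + 1)) :
    SameSpectrum (Sz F (iterateFrobenius F 2 (m + 1))) := by
  haveI : Finite F := Nat.finite_of_card_ne_zero (by rw [hF]; positivity)
  haveI := Fintype.ofFinite F
  refine sp_Sz F _ ?_
  intro x
  rw [iterateFrobenius_def, iterateFrobenius_def, ← pow_mul, ← pow_add]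
  have h1 : m + 1 + (m + 1) = (2 * m + 1) + 1 := by ring
  rw [h1, pow_succ, pow_mul]
  have h2 : x ^ 2 ^ (2 * m + 1) = x := by
    have h3 := FiniteField.pow_card x
    rwa [← Nat.card_eq_fintype_card, hF] at h3
  rw [h2]

end Pool.Agent.Results.MP_6f6ee6_al.SpectrumSuzuki
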